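import Pool.Agent.P8H90.SPMenger
import Pool.Agent.V11244.CohCore

/-! # No nontrivial strongly proper forcing preserves winning strategies of II in the Menger game -/

namespace Pool.Agent.Results.MP_18f314_lc.EveryStronglyProper

open Pool.Agent.Helper669.Forcing
open Pool.Agent.V11244.CohGame
open Pool.Agent.V11244.CohCore (Coh)
open Pool.Agent.P8H90.SPModel (NoAtomBelow)

universe u

theorem incompatible (q t : List Bool) (h1 : q ++ [true] <+: t) (h2 : q ++ [false] <+: t) :
    False := by
  have h3 : q ++ [true] = q ++ [false] :=
    (List.prefix_of_prefix_length_le h1 h2 (by simp)).eq_of_length (by simp)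
  have h4 := List.append_cancel_left h3
  simp at h4

/-- Cohen forcing has no atoms. -/
theorem noAtomBelow_coh (p : Coh) : NoAtomBelow p := by
  intro q _
  refine ⟨List.append (α := Bool) q [true], List.prefix_append (α := Bool) _ _,
    List.append (α := Bool) q [false], List.prefix_append (α := Bool) _ _, ?_⟩
  rintro ⟨t, h1, h2⟩
  exact incompatible q t h1 h2

/-- (1) II has a winning strategy in the Menger game on the Cantor space. (2) Let `P` be any
forcing that is strongly proper for stationarily many models, and let `p` be a condition with no
atom below it (each `q ≤ p` has two incompatible extensions, so `p` forces that the generic filter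
is not in the ground model). Then `p` forces that II has no winning strategy in the Menger game on
the ground model Cantor space, with the ground model topology as a base, even if I plays only
covers by ground model open sets. (3) Cohen forcing `Coh` (finite sequences of bits) is strongly
proper for stationarily many models, and no condition of `Coh` has an atom below it. -/
theorem result :
    IIWinsFin (OpenCovers (ℕ → Bool)) (OpenCovers (ℕ → Bool)) ∧
    (∀ (P : Type u) [Preorder P], StronglyProper P → ∀ p : P, NoAtomBelow p →
      p ∈ fnot (fIIWinsFin (P := P) (X := ℕ → Bool) fOpenCover fOpenCover)) ∧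
    StronglyProper Coh ∧ ∀ p : Coh, NoAtomBelow p :=
  ⟨wins_of_compact, fun _ _ hP _ hp => Pool.Agent.P8H90.SPMenger.no_menger hP hp,
    stronglyProper_of_countable, noAtomBelow_coh⟩

end Pool.Agent.Results.MP_18f314_lc.EveryStronglyProper
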